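import Pool.Agent.H7.HD.Targets9
import Pool.Agent.H7.HD.All

/-!
# MP_e37c09_lc: module IX, indices of the subsets of `ξ` in HOD
-/

open Ordinal Cardinal Order Set
open scoped ZFSet

universe u

namespace Pool.Agent.H60.HD9.IX

open _root_.HD
open Pool.Agent.H17.HD.XK (idx nth_uniq)

theorem idx_uniq (hVH : T_VH.{u}) {X : Set Ordinal.{u}} {a b z : Ordinal.{u}} (h1 : nth X a z)
    (h2 : nth X b z) : a = b := by
  have h := (hVH X).2.1
  apply le_antisymm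
  · exact not_lt.1 fun hl => lt_irrefl _ ((h _ _ _ _ h2 h1).1 hl)
  · exact not_lt.1 fun hl => lt_irrefl _ ((h _ _ _ _ h1 h2).1 hl)

theorem sub_ext {y y' : ZFSet.{u}} {ξ : Ordinal.{u}} (h : y ⊆ ξ.toZFSet) (h' : y' ⊆ ξ.toZFSet)
    (he : ∀ ζ < ξ, (ζ.toZFSet ∈ y ↔ ζ.toZFSet ∈ y')) : y = y' := by
  ext z
  constructor
  · intro hz
    obtain ⟨a, ha, rfl⟩ := mem_toZFSet_iff.1 (h hz)
    exact (he a ha).1 hz
  · intro hz
    obtain ⟨a, ha, rfl⟩ := mem_toZFSet_iff.1 (h' hz)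
    exact (he a ha).2 hz

variable {en : Ordinal.{u} → ZFSet.{u}}

theorem cs_inj {ξ x x' : Ordinal.{u}} (hx : x ∈ Cs en ξ) (hx' : x' ∈ Cs en ξ)
    (h : en x = en x') : x = x' := by
  apply le_antisymm
  · exact not_lt.1 fun hl => hx.2 _ hl h.symm
  · exact not_lt.1 fun hl => hx'.2 _ hl h

theorem cs_ex (hen : EN en) {ξ : Ordinal.{u}} {y : ZFSet.{u}} (hy : HOD y)
    (hs : y ⊆ ξ.toZFSet) : ∃ x ∈ Cs en ξ, en x = y := by
  have hne : {c : Ordinal.{u} | en c = y}.Nonempty := (hen.od y).1 hy.od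
  have h1 : en (sInf {c | en c = y}) = y := csInf_mem hne
  refine ⟨sInf {c | en c = y}, ⟨?_, fun x' hx' he => ?_⟩, h1⟩
  · rw [h1]
    exact hs
  · have h2 : x' ∈ {c | en c = y} := he.trans h1
    exact absurd hx' (not_lt.2 (csInf_le' h2))

theorem do_cs (hen : EN en) : DO.{u} fun w => w 0 ∈ Cs en (w 1) := by
  refine ⟨fun v => ∃ s, ((v 0).IsOrdinal ∧ s = en (v 0).rank) ∧ (∀ z ∈ s, z ∈ v 1) ∧
    ∀ x' ∈ v 0, ¬ (x'.IsOrdinal ∧ s = en x'.rank), ?_, fun w => ?_⟩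
  · refine DZ.ex (R := fun s v => ((v 0).IsOrdinal ∧ s = en (v 0).rank) ∧ (∀ z ∈ s, z ∈ v 1) ∧
      ∀ x' ∈ v 0, ¬ (x'.IsOrdinal ∧ s = en x'.rank)) ?_
    refine DZ.and ?_ (DZ.and ?_ ?_)
    · exact hen.dz.ren fun n => if n = 0 then 1 else 0
    · exact DZ.allMem (R := fun z v => z ∈ v 2) 0 (DZ.mem 0 3)
    · refine DZ.allMem (R := fun x' v => ¬ (x'.IsOrdinal ∧ v 0 = en x'.rank)) 1 ?_
      exact (hen.dz.ren fun n => if n = 0 then 0 else 1).not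
  · constructor
    · rintro ⟨h1, h2⟩
      refine ⟨en (w 0), ⟨ZFSet.isOrdinal_toZFSet _, ?_⟩, fun z hz => h1 hz, ?_⟩
      · show en (w 0) = en (w 0).toZFSet.rank
        rw [rank_toZFSet]
      · rintro x' hx' ⟨-, h3⟩
        obtain ⟨a, ha, rfl⟩ := mem_toZFSet_iff.1 (show x' ∈ (w 0).toZFSet from hx')
        rw [rank_toZFSet] at h3
        exact h2 a ha h3.symm
    · rintro ⟨s, ⟨-, h1⟩, h2, h3⟩
      have h1' : s = en (w 0) := by
        rw [h1]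
        show en (w 0).toZFSet.rank = _
        rw [rank_toZFSet]
      subst h1'
      refine ⟨fun z hz => h2 z hz, fun x' hx' he => ?_⟩
      refine h3 x'.toZFSet (toZFSet_mem_toZFSet_iff.2 hx') ⟨ZFSet.isOrdinal_toZFSet _, ?_⟩
      rw [rank_toZFSet]
      exact he.symm

theorem do_nth (hen : EN en) : DO.{u} fun w => nth (Cs en (w 2)) (w 0) (w 1) :=
  All.db (fun a w => a ∈ Cs en (w 0)) (do_cs hen)

theorem do_nth' (hen : EN en) (i j k : ℕ) : DO.{u} fun w => nth (Cs en (w k)) (w i) (w j) :=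
  DO.s3 (X := fun a b c => nth (Cs en c) a b) (do_nth hen) i j k

theorem do_px (hen : EN en) : DO.{u} fun w => PX en (w 0) (w 1) (w 2) := by
  refine DO.ex (R := fun x w => nth (Cs en (w 0)) (w 1) x ∧ w 2 ∈ E en x) ?_
  exact (do_nth' hen 2 0 1).and (DO.s2 (X := fun a b => a ∈ E en b) (All.ea en hen).1 3 0)

theorem few_cs (ξ : Ordinal.{u}) : ∃ C : Cardinal.{u}, Few C.ord (Cs en ξ) := by
  have hsm : Small.{u} (Cs en ξ) := by
    refine small_of_injective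
      (f := fun x : Cs en ξ => (⟨en x.1, ZFSet.mem_powerset.2 x.2.1⟩ :
        {y : ZFSet.{u} // y ∈ ZFSet.powerset ξ.toZFSet})) ?_
    intro x x' h
    exact Subtype.ext (cs_inj x.2 x'.2 (congrArg Subtype.val h))
  refine ⟨succ #(Shrink.{u} (Cs en ξ)), few_iff.2 ?_⟩
  rw [← Cardinal.lift_id'.{u, u + 1} #(Cs en ξ), Cardinal.lift_mk_eq'.2 ⟨equivShrink (Cs en ξ)⟩,
    Cardinal.lift_lt]
  exact lt_succ _

theorem pn_spec (ξ z : Ordinal.{u}) : (∃ x, nth (Cs en ξ) z x) ↔ z < pn en ξ := by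
  obtain ⟨C, hC⟩ := few_cs (en := en) ξ
  obtain ⟨τ, -, h1, h2⟩ := idx All.vh hC
  have hpn : pn en ξ = τ := by
    apply le_antisymm
    · refine csInf_le' ?_
      rintro ⟨x, hx⟩
      exact lt_irrefl _ (h2 _ _ hx)
    · refine le_csInf ⟨τ, fun ⟨x, hx⟩ => lt_irrefl _ (h2 _ _ hx)⟩ fun b hb => ?_
      exact not_lt.1 fun hl => hb (h1 b hl)
  rw [hpn]
  exact ⟨fun ⟨x, hx⟩ => h2 _ _ hx, h1 z⟩

theorem dr_pn (hen : EN en) : DR fun a b => b = pn en a := by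
  refine DO.congr (A := fun w => ∀ z, ((∃ x, nth (Cs en (w 0)) z x) ↔ z < w 1)) ?_ fun w => ?_
  · refine DO.all (R := fun z w => ((∃ x, nth (Cs en (w 0)) z x) ↔ z < w 1)) ?_
    refine DO.iff ?_ (DO.lt 0 2)
    exact DO.ex (R := fun x w => nth (Cs en (w 1)) (w 0) x) (do_nth' hen 1 0 2)
  · constructor
    · intro h z
      rw [h]
      exact pn_spec _ _
    · intro h
      apply le_antisymm
      · exact not_lt.1 fun hl => lt_irrefl _ ((pn_spec _ _).1 ((h _).2 hl))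
      · exact not_lt.1 fun hl => lt_irrefl _ ((h _).1 ((pn_spec _ _).2 hl))

theorem ix_spec (hen : EN en) {ξ : Ordinal.{u}} {y : ZFSet.{u}} (hy : HOD y)
    (hs : y ⊆ ξ.toZFSet) : ∃ x, nth (Cs en ξ) (ix en ξ y) x ∧ en x = y := by
  have hne : {z | ∃ x, nth (Cs en ξ) z x ∧ en x = y}.Nonempty := by
    obtain ⟨x, hx, he⟩ := cs_ex hen hy hs
    obtain ⟨a, -, ha⟩ := (All.vh (Cs en ξ)).1 x hx
    exact ⟨a, x, ha, he⟩
  exact csInf_mem hne

theorem ix_uniq (hen : EN en) {ξ z x : Ordinal.{u}} {y : ZFSet.{u}} (hy : HOD y)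
    (hs : y ⊆ ξ.toZFSet) (h : nth (Cs en ξ) z x) (he : en x = y) : z = ix en ξ y := by
  obtain ⟨x', h', he'⟩ := ix_spec hen hy hs
  have : x = x' := cs_inj h.1 h'.1 (he.trans he'.symm)
  subst this
  exact idx_uniq All.vh h h'

theorem dr_ix (hen : EN en) (A : Set Ordinal.{u}) (hA : DS A) :
    DR fun a b => b = ix en a (os a A) := by
  refine DO.congr (A := fun w => ∃ x, nth (Cs en (w 0)) (w 1) x ∧ ∀ ζ < w 0,
    (ζ ∈ E en x ↔ ζ ∈ A)) ?_ fun w => ?_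
  · refine DO.ex (R := fun x w => nth (Cs en (w 0)) (w 1) x ∧ ∀ ζ < w 0,
      (ζ ∈ E en x ↔ ζ ∈ A)) ?_
    refine (do_nth' hen 2 0 1).and ?_
    refine DO.allLt (R := fun ζ w => (ζ ∈ E en (w 0) ↔ ζ ∈ A)) 1 ?_
    exact (DO.s2 (X := fun a b => a ∈ E en b) (All.ea en hen).1 0 1).iff (DO.s1 hA 0)
  · have hsub : os (w 0) A ⊆ (w 0).toZFSet := fun z hz => by
      obtain ⟨a, ha, -, rfl⟩ := mem_os.1 hz
      exact toZFSet_mem_toZFSet_iff.2 ha
    constructor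
    · intro h
      obtain ⟨x, hx, he⟩ := ix_spec hen (hod_os hA (w 0)) hsub
      rw [← h] at hx
      refine ⟨x, hx, fun ζ hζ => ?_⟩
      show ζ.toZFSet ∈ en x ↔ _
      rw [he, ord_mem_os]
      exact ⟨fun h => h.2, fun h => ⟨hζ, h⟩⟩
    · rintro ⟨x, hx, he⟩
      refine ix_uniq hen (hod_os hA (w 0)) hsub hx (sub_ext hx.1.1 hsub fun ζ hζ => ?_)
      rw [ord_mem_os]
      exact ⟨fun h => ⟨hζ, (he ζ hζ).1 h⟩, fun h => (he ζ hζ).2 h.2⟩

theorem ix : T_IX.{u} := by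
  intro en hen
  refine ⟨do_px hen, dr_pn hen, dr_ix hen, ?_, ?_, ?_⟩
  · intro ξ y hy hs
    obtain ⟨x, hx, he⟩ := ix_spec hen hy hs
    refine ⟨(pn_spec _ _).1 ⟨x, hx⟩, fun ζ _ => ?_⟩
    constructor
    · rintro ⟨x', hx', h⟩
      have : x' = x := nth_uniq All.vh hx' hx
      subst this
      rw [← he]
      exact h
    · intro h
      exact ⟨x, hx, by show ζ.toZFSet ∈ en x; rw [he]; exact h⟩
  · intro ξ z hz
    obtain ⟨x, hx⟩ := (pn_spec _ _).2 hz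
    have hod : HOD (en x) := HOD.of_sub ((hen.od _).2 ⟨x, rfl⟩) hx.1.1
    exact ⟨en x, hod, hx.1.1, ix_uniq hen hod hx.1.1 hx rfl⟩
  · rintro K ξ - ⟨β, hβ, f, y, -, hf, hff⟩
    classical
    have hfew : Few K.ord (Cs en ξ) := by
      refine ⟨β, hβ, fun b => if h : ∃ x ∈ Cs en ξ, ZFSet.pair b.toZFSet (en x) ∈ f then
        Classical.choose h else 0, fun x hx => ?_⟩
      have hod : HOD (en x) := HOD.of_sub ((hen.od _).2 ⟨x, rfl⟩) hx.1
      obtain ⟨b, hb, hbf⟩ := hff (en x) hod hx.1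
      refine ⟨b, hb, ?_⟩
      have hex : ∃ x ∈ Cs en ξ, ZFSet.pair b.toZFSet (en x) ∈ f := ⟨x, hx, hbf⟩
      beta_reduce
      rw [dif_pos hex]
      obtain ⟨h1, h2⟩ := Classical.choose_spec hex
      refine cs_inj h1 hx ?_
      obtain ⟨w, -, hw⟩ := hf.2 b.toZFSet (toZFSet_mem_toZFSet_iff.2 hb)
      exact (hw _ h2).trans (hw _ hbf).symm
    obtain ⟨τ, hτ, -, h2⟩ := idx All.vh hfew
    refine lt_of_le_of_lt (not_lt.1 fun hl => ?_) hτ
    obtain ⟨x, hx⟩ := (pn_spec _ _).2 hl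
    exact lt_irrefl _ (h2 _ _ hx)

end Pool.Agent.H60.HD9.IX
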