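import Pool.Agent.H7.HD.Targets9
import Pool.Agent.H33.HD.VD
import Pool.Agent.H65.HD.SC

/-!
# MP_e37c09_lc: module VS, `VF` in terms of stationary sets
-/

open Ordinal Cardinal Order Set
open scoped ZFSet

universe u

namespace Pool.Agent.H60.HD9.VS

open _root_.HD

theorem vs : T_VS.{u} := by
  intro K hK h0 hVF S y hS hy
  obtain ⟨C0, e, hC0, he1, -, he3⟩ := hVF
  by_contra hcon
  have h1 : ∀ ζ < K.ord, ∃ C, Clb K.ord C ∧ ∀ a < K.ord, a ∈ C → a ∈ S →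
      y a ≠ e ζ ∩ a.toZFSet := by
    intro ζ _
    by_contra hc
    refine hcon ⟨e ζ, (he1 ζ).1, (he1 ζ).2, fun C hC => ?_⟩
    by_contra hc'
    refine hc ⟨C, hC, fun a ha haC haS heq => hc' ⟨a, ha, haC, haS, heq⟩⟩
  choose! C hC1 hC2 using h1
  have h2 := Pool.Agent.H33.HD.VD.diag hK h0 C hC1
  have h3 := Pool.Agent.H65.HD.clb_inter (by rw [hK.cof_ord]; exact h0) hC0 h2
  obtain ⟨a, ha, ⟨haC0, -, haC⟩, haS⟩ := hS _ h3
  obtain ⟨h4, h5⟩ := hy a haS ha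
  obtain ⟨ζ, hζ, heq⟩ := he3 a haC0 ha (y a) h4 h5
  exact hC2 ζ (hζ.trans ha) a ha (haC ζ hζ) haS heq

end Pool.Agent.H60.HD9.VS
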